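import Mathlib
import Pool.Agent.TH16.WC.Main
import Pool.Agent.TH16.WC.Simple

set_option autoImplicit false

/-!
# A Zariski-dense subgroup of `SO₅(ℂ)` which is weakly commensurable to an `S`-arithmetic subgroup
of `S`-rank at least two, but is not `S`-arithmetic

`G = SO₅(ℂ)` is connected, almost simple and adjoint. It contains an `S`-arithmetic subgroup `Γ₁`
of `S`-rank at least two and a Zariski-dense subgroup `Γ₂`, weakly commensurable to `Γ₁`, which is
not `S`-arithmetic. (In the proof `Γ₁ = SO₅(ℤ[1/5])`, and `Γ₂` is an infinitely generated subgroup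
of `Γ₁` of infinite index, which contains a conjugate of a power of every element of infinite
order of `Γ₁`; it is built by a `5`-adic table-tennis argument.)
-/

namespace Pool.Agent.Results.MP_1921ec_al.NonArithmetic

open Pool.Agent.TH16.WC

theorem result :
    IsConnectedAlmostSimple (SOG ℂ) ∧
    (∀ z ∈ SOG ℂ, (∀ g ∈ SOG ℂ, z * g = g * z) → z = 1) ∧
    ∃ (T : Triple (SOG ℂ)) (Γ₁ Γ₂ : Subgroup (Matrix.GeneralLinearGroup (Fin 5) ℂ)),
      T.IsArithmetic Γ₁ ∧ T.SRankGE 2 ∧
      ZariskiDense Γ₁ (SOG ℂ) ∧ ZariskiDense Γ₂ (SOG ℂ) ∧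
      WeaklyCommensurable (SOG ℂ) (SOG ℂ) Γ₁ Γ₂ ∧ ¬ IsSArithmetic (SOG ℂ) Γ₂ :=
  ⟨SO5_almostSimple, SO5_center, exists_counterexample⟩

end Pool.Agent.Results.MP_1921ec_al.NonArithmetic
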